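import Pool.Agent.H66.NS.Min
import Pool.Agent.H33.NS.Mid
import Pool.Agent.H54.NS.Stab

/-!
Recurrence and separation (problem MP_90715c_gt, NoSeparation, section 5).
-/

open Matrix Set Filter Topology MeasureTheory
open scoped Pointwise

namespace Pool.Agent.H81.NS

open Pool.Agent.H90.WC Pool.Agent.H81.TG B

variable {Γ : Subgroup G} {U : Set (OnePoint ℂ)}

/-- No element of a minimal family is isolated. -/
theorem not_isolated (T : Tool)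
    (hcoc : ∃ C : Set G, IsCompact C ∧ ∀ g : G, ∃ γ ∈ Γ, γ * g ∈ C)
    (hStab : ∀ s ∈ Γ, ∀ L, Lf Γ U L → ds (mv s L) L = 0 → s = 1 ∨ s = -1)
    (hC : ∀ c > (0 : ℝ), ∀ X : ℕ → Set (OnePoint ℂ), (∀ n, Lf Γ U (X n)) →
      (∀ n, c ≤ lam 1 (X n)) → (∀ n, c ≤ lam 1 (X n)ᶜ) →
      ∃ Y, Lf Γ U Y ∧ ∃ φ : ℕ → ℕ, StrictMono φ ∧
        Tendsto (fun n => ds (X (φ n)) Y) atTop (𝓝 0))
    {M : Set (Set (OnePoint ℂ))} (hM : MinF Γ U M) {L : Set (OnePoint ℂ)} (hL : L ∈ M)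
    {ε : ℝ} (hε : 0 < ε) : ∃ Z ∈ M, 0 < ds Z L ∧ ds Z L < ε := by
  by_contra hcon
  have hiso : ∀ Z ∈ M, ds Z L < ε → ds Z L = 0 := by
    intro Z hZ h
    by_contra h0
    exact hcon ⟨Z, hZ, lt_of_le_of_ne (ds_nonneg _ _) (Ne.symm h0), h⟩
  have lL := hM.leaf L hL
  have mL := lL.meas
  obtain ⟨R, r₀, hr₀, h⟩ := half_small T mL lL.pos lL.cpos
  set r : ℕ → ℝ := fun j => r₀ / ((j : ℝ) + 2) with hr
  have hrpos : ∀ j, 0 < r j := fun j => by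
    rw [hr]
    positivity
  have hrlt : ∀ j, r j < r₀ := fun j => by
    rw [hr]
    show r₀ / ((j : ℝ) + 2) < r₀
    have hj : (0 : ℝ) ≤ (j : ℝ) := Nat.cast_nonneg j
    rw [div_lt_iff₀ (by linarith)]
    nlinarith
  choose z hz1 hz2 using fun j => h (r j) (hrpos j) (hrlt j)
  obtain ⟨D, hD, hcov⟩ := hcoc
  choose γ hγ hγD using fun j => hcov (tf (z j) (r j))
  obtain ⟨c, hc1, hc⟩ := lam_sd_le_ds T hD
  have hc0 : 0 < c := by linarith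
  have hXM : ∀ j, mv (γ j) L ∈ M := fun j => hM.inv L hL _ (hγ j)
  have b1 : ∀ j, 1 / 2 / c ≤ lam 1 (mv (γ j) L) := by
    intro j
    have e1 := (hc _ (hγD j) (mv (γ j) L) (meas_mv _ mL)).1
    rw [lam_mv, hz2] at e1
    rw [div_le_iff₀ hc0]
    linarith
  have b2 : ∀ j, 1 / 2 / c ≤ lam 1 (mv (γ j) L)ᶜ := by
    intro j
    have e1 := (hc _ (hγD j) (mv (γ j) L)ᶜ (meas_mv _ mL).compl).1
    rw [← mv_compl, lam_mv, lam_compl T _ mL, hz2, mv_compl] at e1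
    rw [div_le_iff₀ hc0]
    linarith
  obtain ⟨Y, hY, φ, hφ, hlim⟩ := hC (1 / 2 / c) (by positivity) (fun j => mv (γ j) L)
    (fun j => hM.leaf _ (hXM j)) b1 b2
  have hYM : Y ∈ M := by
    refine hM.closed Y hY.meas hY.pos hY.cpos fun η hη => ?_
    obtain ⟨j, hj⟩ := (hlim.eventually (gt_mem_nhds hη)).exists
    exact ⟨_, hXM (φ j), by rw [ds_comm]; exact hj⟩
  obtain ⟨g, hg, hgY⟩ := hM.dense Y hYM L hL (ε / 2) (by linarith)
  obtain ⟨c', hc1', hc'⟩ := ds_mv_le T g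
  have hc0' : 0 < c' := by linarith
  obtain ⟨n₀, hn₀⟩ := eventually_atTop.1 (hlim.eventually
    (gt_mem_nhds (show 0 < ε / 2 / c' by positivity)))
  have near : ∀ n, n₀ ≤ n → ds (mv g (mv (γ (φ n)) L)) (mv g Y) < ε / 2 := by
    intro n hn
    have e1 := hc' (mv (γ (φ n)) L) Y (meas_mv _ mL) hY.meas
    have e2 := hn₀ n hn
    rw [lt_div_iff₀ hc0'] at e2
    linarith
  have same : ∀ n, n₀ ≤ n →
      ds (mv g (mv (γ (φ n)) L)) (mv g (mv (γ (φ n₀)) L)) = 0 := by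
    intro n hn
    have p1 := near n hn
    have p2 := near n₀ le_rfl
    refine le_antisymm ?_ (ds_nonneg _ _)
    rcases hgY with hgY | hgY
    · have q1 := hiso _ (hM.inv _ (hXM (φ n)) g hg)
        ((ds_tri T _ (mv g Y) L).trans_lt (by linarith))
      have q2 := hiso _ (hM.inv _ (hXM (φ n₀)) g hg)
        ((ds_tri T _ (mv g Y) L).trans_lt (by linarith))
      have q3 := ds_tri T (mv g (mv (γ (φ n)) L)) L (mv g (mv (γ (φ n₀)) L))
      rw [ds_comm L] at q3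
      linarith
    · rw [← ds_compl] at p1 p2
      have q1 := hiso _ (hM.compl _ (hM.inv _ (hXM (φ n)) g hg))
        ((ds_tri T _ (mv g Y)ᶜ L).trans_lt (by linarith))
      have q2 := hiso _ (hM.compl _ (hM.inv _ (hXM (φ n₀)) g hg))
        ((ds_tri T _ (mv g Y)ᶜ L).trans_lt (by linarith))
      have q3 := ds_tri T (mv g (mv (γ (φ n)) L))ᶜ L (mv g (mv (γ (φ n₀)) L))ᶜ
      rw [ds_comm L, ds_compl] at q3
      linarith
  have stab : ∀ n, n₀ ≤ n → (γ (φ n₀))⁻¹ * γ (φ n) = 1 ∨ (γ (φ n₀))⁻¹ * γ (φ n) = -1 := by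
    intro n hn
    refine hStab _ (Γ.mul_mem (Γ.inv_mem (hγ _)) (hγ _)) L lL ?_
    obtain ⟨d, -, hd⟩ := ds_mv_le T ((γ (φ n₀))⁻¹ * g⁻¹)
    have e1 := hd _ _ (meas_mv g (meas_mv (γ (φ n)) mL)) (meas_mv g (meas_mv (γ (φ n₀)) mL))
    rw [same n hn, mul_zero, mv_mul, mv_mul, mv_inv_mv, mv_inv_mv, mv_inv_mv, ← mv_mul] at e1
    exact le_antisymm e1 (ds_nonneg _ _)
  -- the compact set
  have hfin : IsCompact ({(γ (φ n₀))⁻¹, -(γ (φ n₀))⁻¹} : Set G) :=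
    ((finite_singleton _).insert _).isCompact
  have hQ : IsCompact ({(γ (φ n₀))⁻¹, -(γ (φ n₀))⁻¹} * D) := hfin.mul hD
  have hin : ∀ n, n₀ ≤ n → tf (z (φ n)) (r (φ n)) ∈ ({(γ (φ n₀))⁻¹, -(γ (φ n₀))⁻¹} * D : Set G) := by
    intro n hn
    have hs : (γ (φ n))⁻¹ ∈ ({(γ (φ n₀))⁻¹, -(γ (φ n₀))⁻¹} : Set G) := by
      rcases stab n hn with h | h
      · left
        rw [_root_.inv_inj]
        exact (inv_mul_eq_one.1 h).symm
      · right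
        rw [mem_singleton_iff]
        have e : γ (φ n) = -γ (φ n₀) := by
          rw [inv_mul_eq_iff_eq_mul] at h
          rw [h, mul_neg, mul_one]
        rw [e, inv_eq_iff_mul_eq_one, neg_mul_neg, mul_inv_cancel]
    have e : tf (z (φ n)) (r (φ n)) =
        (γ (φ n))⁻¹ * (γ (φ n) * tf (z (φ n)) (r (φ n))) := by group
    rw [e]
    exact Set.mul_mem_mul hs (hγD _)
  have hr0 : Tendsto r atTop (𝓝 0) := by
    have h1 : Tendsto (fun j : ℕ => (j : ℝ) + 2) atTop atTop :=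
      tendsto_atTop_add_const_right _ _ tendsto_natCast_atTop_atTop
    exact h1.const_div_atTop r₀
  have hco := (tf_cocompact z r hrpos hr0).comp hφ.tendsto_atTop
  have hev := hco.eventually (hQ.compl_mem_cocompact)
  obtain ⟨n₁, hn₁⟩ := eventually_atTop.1 hev
  exact hn₁ (max n₀ n₁) (le_max_right _ _) (hin _ (le_max_left _ _))

lemma ds_of_sub (T : Tool) {X Y : Set (OnePoint ℂ)} (h : Sub X Y) : ds X Y = lam 1 (Y \ X) := by
  refine le_antisymm ?_ (lam_diff_le_sd' T 1 X Y)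
  have h1 := lam_sd_le T 1 X Y
  have h2 : lam 1 (X \ Y) = 0 := h
  unfold ds
  linarith

/-- An increasing sequence of elements of a minimal family which converges to an element. -/
theorem exists_seq (T : Tool)
    (hN : ∀ X Y, Lf Γ U X → Lf Γ U Y → Nst X Y)
    (hcoc : ∃ C : Set G, IsCompact C ∧ ∀ g : G, ∃ γ ∈ Γ, γ * g ∈ C)
    (hStab : ∀ s ∈ Γ, ∀ L, Lf Γ U L → ds (mv s L) L = 0 → s = 1 ∨ s = -1)
    (hC : ∀ c > (0 : ℝ), ∀ X : ℕ → Set (OnePoint ℂ), (∀ n, Lf Γ U (X n)) →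
      (∀ n, c ≤ lam 1 (X n)) → (∀ n, c ≤ lam 1 (X n)ᶜ) →
      ∃ Y, Lf Γ U Y ∧ ∃ φ : ℕ → ℕ, StrictMono φ ∧
        Tendsto (fun n => ds (X (φ n)) Y) atTop (𝓝 0))
    {M : Set (Set (OnePoint ℂ))} (hM : MinF Γ U M) :
    ∃ L ∈ M, ∃ A : ℕ → Set (OnePoint ℂ), (∀ n, A n ∈ M) ∧ (∀ n, Sub (A n) (A (n + 1))) ∧
      (∀ n, ¬ Sub (A (n + 1)) (A n)) ∧ (∀ n, Sub (A n) L) ∧ (∀ n, ¬ Sub L (A n)) ∧
      Tendsto (fun n => ds (A n) L) atTop (𝓝 0) := by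
  obtain ⟨L₀, hL₀⟩ := hM.ne
  have hni := fun (ε : ℝ) (hε : 0 < ε) => not_isolated T hcoc hStab hC hM hL₀ hε
  have lL₀ := hM.leaf _ hL₀
  -- one side
  have side : ∃ L ∈ M, ∀ ε > (0 : ℝ), ∃ Z ∈ M, Sub Z L ∧ 0 < ds Z L ∧ ds Z L < ε := by
    by_contra hcon
    push Not at hcon
    obtain ⟨ε₁, hε₁, h1⟩ := hcon L₀ hL₀
    obtain ⟨ε₂, hε₂, h2⟩ := hcon L₀ᶜ (hM.compl _ hL₀)
    have hp := lL₀.pos
    have hq := lL₀.cpos
    obtain ⟨Z, hZ, hZ1, hZ2⟩ := hni (min (min ε₁ ε₂) (min (lam 1 L₀) (lam 1 L₀ᶜ)))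
      (lt_min (lt_min hε₁ hε₂) (lt_min hp hq))
    have m1 := min_le_left (min ε₁ ε₂) (min (lam 1 L₀) (lam 1 L₀ᶜ))
    have m2 := min_le_right (min ε₁ ε₂) (min (lam 1 L₀) (lam 1 L₀ᶜ))
    have m3 := min_le_left ε₁ ε₂
    have m4 := min_le_right ε₁ ε₂
    have m5 := min_le_left (lam 1 L₀) (lam 1 L₀ᶜ)
    have m6 := min_le_right (lam 1 L₀) (lam 1 L₀ᶜ)
    have e1 := ds_self L₀
    have e2 := ds_comm L₀ Z
    rcases comparable T hN (hM.leaf _ hZ) lL₀ (L := L₀) (by linarith) (by linarith) with h | h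
    · have := h1 Z hZ h hZ1
      linarith
    · have h3 : 0 < ds Zᶜ L₀ᶜ := by rwa [ds_compl]
      have := h2 Zᶜ (hM.compl _ hZ) (sub_compl.2 h) h3
      rw [ds_compl] at this
      linarith
  obtain ⟨L, hL, hside⟩ := side
  have lL := hM.leaf _ hL
  have hp := lL.pos
  have hq := lL.cpos
  set m : ℝ := min (lam 1 L) (lam 1 Lᶜ) / 2 with hm
  have hm0 : 0 < m := by
    rw [hm]
    have := lt_min hp hq
    linarith
  have hm1 : 2 * m ≤ lam 1 L := by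
    have := min_le_left (lam 1 L) (lam 1 Lᶜ)
    rw [hm]
    linarith
  have hm2 : 2 * m ≤ lam 1 Lᶜ := by
    have := min_le_right (lam 1 L) (lam 1 Lᶜ)
    rw [hm]
    linarith
  let P := {Z : Set (OnePoint ℂ) // Z ∈ M ∧ Sub Z L ∧ 0 < ds Z L ∧ ds Z L < m}
  have step : ∀ ε > (0 : ℝ), ∃ Z : P, ds Z.1 L < ε := by
    intro ε hε
    obtain ⟨Z, hZ, h1, h2, h3⟩ := hside (min ε m) (lt_min hε hm0)
    exact ⟨⟨Z, hZ, h1, h2, h3.trans_le (min_le_right _ _)⟩, h3.trans_le (min_le_left _ _)⟩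
  have step2 : ∀ (n : ℕ) (Z : P), ∃ Z' : P, ds Z'.1 L < min (ds Z.1 L) (1 / ((n : ℝ) + 1)) :=
    fun n Z => step _ (lt_min Z.2.2.2.1 (by positivity))
  choose s hs using step2
  obtain ⟨Z₀, -⟩ := step 1 one_pos
  let A : ℕ → P := fun n => Nat.rec Z₀ (fun n Z => s n Z) n
  have hA : ∀ n, A (n + 1) = s n (A n) := fun n => rfl
  have hA1 : ∀ n, ds (A (n + 1)).1 L < ds (A n).1 L := fun n => by
    rw [hA]
    exact (hs n (A n)).trans_le (min_le_left _ _)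
  have hA2 : ∀ n : ℕ, ds (A (n + 1)).1 L < 1 / ((n : ℝ) + 1) := fun n => by
    rw [hA]
    exact (hs n (A n)).trans_le (min_le_right _ _)
  have hno : ∀ n, ¬ Sub (A (n + 1)).1 (A n).1 := by
    intro n h
    have e1 := ds_of_sub T (A (n + 1)).2.2.1
    have e2 := ds_of_sub T (A n).2.2.1
    have e3 := lam_diff_tri T 1 L (A n).1 (A (n + 1)).1
    have e3' := lam_diff_tri T 1 L (A (n + 1)).1 (A n).1
    have e4 : lam 1 ((A (n + 1)).1 \ (A n).1) = 0 := h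
    have e5 := hA1 n
    linarith
  refine ⟨L, hL, fun n => (A n).1, fun n => (A n).2.1, fun n => ?_, hno, fun n => (A n).2.2.1,
    fun n h => ?_, ?_⟩
  · have q1 := (A n).2.2.2.2
    have q2 := (A (n + 1)).2.2.2.2
    have e1 := ds_comm L (A n).1
    have e2 := ds_comm L (A (n + 1)).1
    rcases comparable T hN (hM.leaf _ (A n).2.1) (hM.leaf _ (A (n + 1)).2.1) (L := L)
      (by linarith) (by linarith) with h | h
    · exact h
    · exact absurd h (hno n)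
  · have e1 := ds_of_sub T (A n).2.2.1
    have e2 : lam 1 (L \ (A n).1) = 0 := h
    have e3 := (A n).2.2.2.1
    linarith
  · rw [← tendsto_add_atTop_iff_nat 1]
    refine squeeze_zero (fun n => ds_nonneg _ _) (fun n => (hA2 n).le) ?_
    exact tendsto_one_div_add_atTop_nhds_zero_nat

/-- Separation of the elements of the sequence from the complement of the limit. -/
theorem sep_seq (T : Tool)
    (hN : ∀ X Y, Lf Γ U X → Lf Γ U Y → Nst X Y)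
    (hW : ∀ f ∈ Γ, ∀ b, Lf Γ U (Wl U f b))
    (hCl : ∀ f ∈ Γ, ∀ f' ∈ Γ, ∀ b b' : Bool, Sub (Wl U f b) (Wl U f' b') →
      ¬ Sub (Wl U f' b') (Wl U f b) → closure (Wl U f b) ⊆ interior (Wl U f' b'))
    {a x y L : Set (OnePoint ℂ)} (ha : Lf Γ U a) (hx : Lf Γ U x) (hy : Lf Γ U y)
    (hL : Lf Γ U L) (hax : Sub a x) (hxa : ¬ Sub x a) (hxy : Sub x y) (hyx : ¬ Sub y x)
    (hyL : Sub y L) (hLy : ¬ Sub L y) :
    ∃ E F, IsClosed E ∧ IsClosed F ∧ Disjoint E F ∧ Sub a E ∧ Sub Lᶜ F := by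
  have p1 : 0 < lam 1 (x \ a) := (not_sub_iff T hx.meas ha.meas 1).1 hxa
  have p2 : 0 < lam 1 (y \ x) := (not_sub_iff T hy.meas hx.meas 1).1 hyx
  have p3 : 0 < lam 1 (L \ y) := (not_sub_iff T hL.meas hy.meas 1).1 hLy
  have pa := ha.pos
  have py := hy.cpos
  have pL := hL.cpos
  obtain ⟨f, hf, b, hb⟩ := hx.lim (min (min (lam 1 a) (lam 1 (x \ a)))
    (min (lam 1 (y \ x)) (lam 1 yᶜ))) (lt_min (lt_min pa p1) (lt_min p2 py))
  have lW := hW f hf b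
  set W := Wl U f b with hWd
  have m1 := min_le_left (min (lam 1 a) (lam 1 (x \ a))) (min (lam 1 (y \ x)) (lam 1 yᶜ))
  have m2 := min_le_right (min (lam 1 a) (lam 1 (x \ a))) (min (lam 1 (y \ x)) (lam 1 yᶜ))
  have m3 := min_le_left (lam 1 a) (lam 1 (x \ a))
  have m4 := min_le_right (lam 1 a) (lam 1 (x \ a))
  have m5 := min_le_left (lam 1 (y \ x)) (lam 1 yᶜ)
  have m6 := min_le_right (lam 1 (y \ x)) (lam 1 yᶜ)
  rw [ds_comm] at hb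
  obtain ⟨w1, w2, -⟩ := md_between T ha.meas hy.meas hx.meas lW.meas (hN _ _ ha lW)
    (hN _ _ lW hy) hax hxy 1 (m1.trans m3) (m1.trans m4) (m2.trans m5) (m2.trans m6) hb
  have p4 : 0 < lam 1 (y \ W) := by
    have e1 := lam_diff_tri T 1 y W x
    have e2 := lam_diff_le_sd T 1 W x
    unfold ds at hb
    linarith
  have pW := lW.pos
  obtain ⟨f', hf', b', hb'⟩ := hy.lim (min (min (lam 1 W) (lam 1 (y \ W)))
    (min (lam 1 (L \ y)) (lam 1 Lᶜ))) (lt_min (lt_min pW p4) (lt_min p3 pL))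
  have lW' := hW f' hf' b'
  have n1 := min_le_left (min (lam 1 W) (lam 1 (y \ W))) (min (lam 1 (L \ y)) (lam 1 Lᶜ))
  have n2 := min_le_right (min (lam 1 W) (lam 1 (y \ W))) (min (lam 1 (L \ y)) (lam 1 Lᶜ))
  have n3 := min_le_left (lam 1 W) (lam 1 (y \ W))
  have n4 := min_le_right (lam 1 W) (lam 1 (y \ W))
  have n5 := min_le_left (lam 1 (L \ y)) (lam 1 Lᶜ)
  have n6 := min_le_right (lam 1 (L \ y)) (lam 1 Lᶜ)
  rw [ds_comm] at hb'
  obtain ⟨v1, v2, v3⟩ := md_between T lW.meas hL.meas hy.meas lW'.meas (hN _ _ lW lW')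
    (hN _ _ lW' hL) w2 hyL 1 (n1.trans n3) (n1.trans n4) (n2.trans n5) (n2.trans n6) hb'
  have hcl := hCl f hf f' hf' b b' v1 v3
  refine ⟨closure W, (interior (Wl U f' b'))ᶜ, isClosed_closure,
    isOpen_interior.isClosed_compl, ?_, ?_, ?_⟩
  · rw [disjoint_compl_right_iff_subset]
    exact hcl
  · exact sub_trans T w1 (sub_of_subset subset_closure)
  · exact sub_trans T (sub_compl.2 v2) (sub_of_subset (compl_subset_compl.2 interior_subset))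

/-- **Section 5**: the data for the cube. -/
theorem exists_data (T : Tool)
    (hN : ∀ X Y, Lf Γ U X → Lf Γ U Y → Nst X Y)
    (hW : ∀ f ∈ Γ, ∀ b, Lf Γ U (Wl U f b))
    (hCl : ∀ f ∈ Γ, ∀ f' ∈ Γ, ∀ b b' : Bool, Sub (Wl U f b) (Wl U f' b') →
      ¬ Sub (Wl U f' b') (Wl U f b) → closure (Wl U f b) ⊆ interior (Wl U f' b'))
    (hU : IsOpen U)
    (hcoc : ∃ C : Set G, IsCompact C ∧ ∀ g : G, ∃ γ ∈ Γ, γ * g ∈ C)
    (hStab : ∀ s ∈ Γ, ∀ L, Lf Γ U L → ds (mv s L) L = 0 → s = 1 ∨ s = -1)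
    (hC : ∀ c > (0 : ℝ), ∀ X : ℕ → Set (OnePoint ℂ), (∀ n, Lf Γ U (X n)) →
      (∀ n, c ≤ lam 1 (X n)) → (∀ n, c ≤ lam 1 (X n)ᶜ) →
      ∃ Y, Lf Γ U Y ∧ ∃ φ : ℕ → ℕ, StrictMono φ ∧
        Tendsto (fun n => ds (X (φ n)) Y) atTop (𝓝 0)) :
    ∃ M, MinF Γ U M ∧ ∃ L ∈ M, ∃ A : ℕ → Set (OnePoint ℂ), (∀ n, A n ∈ M) ∧
      (∀ n, Sub (A n) (A (n + 1))) ∧ (∀ n, Sub (A n) L) ∧
      Tendsto (fun n => ds (A n) L) atTop (𝓝 0) ∧
      Tendsto (fun n => lam 1 (L \ A n)) atTop (𝓝 0) ∧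
      ∀ n, ∃ E F, IsClosed E ∧ IsClosed F ∧ Disjoint E F ∧ Sub (A n) E ∧ Sub Lᶜ F := by
  obtain ⟨M, hM⟩ := exists_minF T hcoc hC
    (fam_leaves T hU ⟨_, hW 1 Γ.one_mem true⟩)
  obtain ⟨L, hL, A, hA, h1, h2, h3, h4, h5⟩ := exists_seq T hN hcoc hStab hC hM
  refine ⟨M, hM, L, hL, A, hA, h1, h3, h5, ?_, fun n => ?_⟩
  · exact h5.congr fun n => ds_of_sub T (h3 n)
  · exact sep_seq T hN hW hCl (hM.leaf _ (hA n)) (hM.leaf _ (hA (n + 1)))
      (hM.leaf _ (hA (n + 2))) (hM.leaf _ hL) (h1 n) (h2 n) (h1 (n + 1)) (h2 (n + 1)) (h3 (n + 2))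
      (h4 (n + 2))

end Pool.Agent.H81.NS
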