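import Pool.Agent.H33.NS.Frm
import Pool.Agent.H61.NS.Leaf

/-!
Minimal families of leaves (problem MP_90715c_gt, NoSeparation, section 5).
-/

open Matrix Set Filter Topology MeasureTheory

namespace Pool.Agent.H81.NS

open Pool.Agent.H90.WC Pool.Agent.H81.TG B

variable {Γ : Subgroup G} {U : Set (OnePoint ℂ)}

lemma continuous_tf {r : ℝ} (hr : 0 < r) : Continuous fun z : ℂ => tf z r := by
  have h : Continuous fun z : ℂ => ((z, r) : ℂ × ℝ) := by fun_prop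
  exact tf_cont.comp_continuous h fun z => hr

/-- At every small scale a leaf has visual measure one half at some point of a bounded set. -/
theorem half_small (T : Tool) {X : Set (OnePoint ℂ)} (hX : MeasurableSet X) (h1 : 0 < lam 1 X)
    (h2 : 0 < lam 1 Xᶜ) : ∃ R r₀ : ℝ, 0 < r₀ ∧ ∀ r : ℝ, 0 < r → r < r₀ →
      ∃ z : ℂ, ‖z‖ ≤ R ∧ lam (tf z r) X = 1 / 2 := by
  obtain ⟨a, ha⟩ := T.dens X hX h1
  obtain ⟨b, hb⟩ := T.dens Xᶜ hX.compl h2
  obtain ⟨ra, hra, ha⟩ := ha 1 (1 / 4) one_pos (by norm_num)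
  obtain ⟨rb, hrb, hb⟩ := hb 1 (1 / 4) one_pos (by norm_num)
  refine ⟨‖a‖ + ‖b‖ + ‖a - b‖, min ra rb, lt_min hra hrb, fun r hr hr' => ?_⟩
  have e1 := ha a r hr (hr'.trans_le (min_le_left _ _)) (by simp; linarith)
  have e2 := hb b r hr (hr'.trans_le (min_le_right _ _)) (by simp; linarith)
  rw [compl_compl] at e2
  rw [lam_compl T _ hX] at e1
  have hcont : Continuous fun t : ℝ => lam (tf (b + t * (a - b)) r) X := by
    have h3 := (lam_cont T hX).comp (continuous_tf hr)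
    exact h3.comp (by fun_prop)
  have hivt := intermediate_value_Icc (zero_le_one' ℝ) hcont.continuousOn
  have hmem : (1 / 2 : ℝ) ∈ Icc (lam (tf (b + ((0 : ℝ) : ℂ) * (a - b)) r) X)
      (lam (tf (b + ((1 : ℝ) : ℂ) * (a - b)) r) X) := by
    constructor
    · rw [Complex.ofReal_zero, zero_mul, add_zero]
      linarith
    · rw [Complex.ofReal_one, one_mul, add_sub_cancel]
      linarith
  obtain ⟨t, ht, hval⟩ := hivt hmem
  refine ⟨b + t * (a - b), ?_, hval⟩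
  refine (norm_add_le _ _).trans ?_
  rw [norm_mul, Complex.norm_real, Real.norm_eq_abs, abs_of_nonneg ht.1]
  have h4 : t * ‖a - b‖ ≤ 1 * ‖a - b‖ := mul_le_mul_of_nonneg_right ht.2 (norm_nonneg _)
  have h5 := norm_nonneg a
  linarith

/-- Every leaf has a translate which is neither small nor big. -/
theorem balanced (T : Tool)
    (hcoc : ∃ C : Set G, IsCompact C ∧ ∀ g : G, ∃ γ ∈ Γ, γ * g ∈ C) :
    ∃ c : ℝ, 0 < c ∧ ∀ X, Lf Γ U X → ∃ g ∈ Γ, c ≤ lam 1 (mv g X) ∧ c ≤ lam 1 (mv g X)ᶜ := by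
  obtain ⟨D, hD, hcov⟩ := hcoc
  obtain ⟨c, hc1, hc⟩ := lam_sd_le_ds T hD
  have hc0 : 0 < c := by linarith
  refine ⟨1 / 2 / c, by positivity, fun X hX => ?_⟩
  obtain ⟨R, r₀, hr₀, h⟩ := half_small T hX.meas hX.pos hX.cpos
  obtain ⟨z, -, hz⟩ := h (r₀ / 2) (by linarith) (by linarith)
  obtain ⟨γ, hγ, hγD⟩ := hcov (tf z (r₀ / 2))
  refine ⟨γ, hγ, ?_, ?_⟩
  · have e1 := (hc _ hγD (mv γ X) (meas_mv γ hX.meas)).1
    rw [lam_mv, hz] at e1
    rw [div_le_iff₀ hc0]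
    linarith
  · have e1 := (hc _ hγD (mv γ X)ᶜ (meas_mv γ hX.meas).compl).1
    rw [← mv_compl, lam_mv, lam_compl T _ hX.meas, hz, mv_compl] at e1
    rw [div_le_iff₀ hc0]
    linarith

/-- The pseudometric of the distance of sets. -/
noncomputable def pm (T : Tool) : PseudoMetricSpace (Set (OnePoint ℂ)) where
  dist := ds
  dist_self := ds_self
  dist_comm := ds_comm
  dist_triangle := ds_tri T

/-- Invariant closed families of leaves. -/
structure Fam (Γ : Subgroup G) (U : Set (OnePoint ℂ)) (M : Set (Set (OnePoint ℂ))) : Prop where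
  leaf : ∀ X ∈ M, Lf Γ U X
  ne : M.Nonempty
  inv : ∀ X ∈ M, ∀ g ∈ Γ, mv g X ∈ M
  compl : ∀ X ∈ M, Xᶜ ∈ M
  closed : ∀ X, MeasurableSet X → 0 < lam 1 X → 0 < lam 1 Xᶜ →
    (∀ ε > (0 : ℝ), ∃ Y ∈ M, ds X Y < ε) → X ∈ M

/-- The family of all leaves. -/
theorem fam_leaves (T : Tool) (hU : IsOpen U) (hne : ∃ X, Lf Γ U X) :
    Fam Γ U {X | Lf Γ U X} where
  leaf := fun _ hX => hX
  ne := hne
  inv := fun _ hX _ hg => lf_mv T hU hX hg
  compl := fun _ hX => lf_compl hX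
  closed := fun _ mX h1 h2 h => lf_lim T mX h1 h2 fun ε hε => h ε hε

lemma lam_ds_le (T : Tool) (X Y : Set (OnePoint ℂ)) : lam 1 X ≤ lam 1 Y + ds X Y :=
  lam_le_sd T 1 X Y

/-- The slice of the leaves of bounded size is compact. -/
theorem slice_compact (T : Tool)
    (hC : ∀ c > (0 : ℝ), ∀ X : ℕ → Set (OnePoint ℂ), (∀ n, Lf Γ U (X n)) →
      (∀ n, c ≤ lam 1 (X n)) → (∀ n, c ≤ lam 1 (X n)ᶜ) →
      ∃ Y, Lf Γ U Y ∧ ∃ φ : ℕ → ℕ, StrictMono φ ∧
        Tendsto (fun n => ds (X (φ n)) Y) atTop (𝓝 0)) {c : ℝ} (hc : 0 < c) :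
    @IsCompact _ (pm T).toUniformSpace.toTopologicalSpace
      {X | Lf Γ U X ∧ c ≤ lam 1 X ∧ c ≤ lam 1 Xᶜ} := by
  letI := pm T
  apply IsSeqCompact.isCompact
  intro X hX
  obtain ⟨Y, hY, φ, hφ, hlim⟩ := hC c hc X (fun n => (hX n).1) (fun n => (hX n).2.1)
    (fun n => (hX n).2.2)
  refine ⟨Y, ⟨hY, ?_, ?_⟩, φ, hφ, ?_⟩
  · refine le_of_tendsto_of_tendsto (tendsto_const_nhds (x := c) (f := (atTop : Filter ℕ)))
      ((tendsto_const_nhds (x := lam 1 Y)).add hlim) (Eventually.of_forall fun n => ?_) |>.trans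
      (le_of_eq (add_zero _))
    exact (hX (φ n)).2.1.trans (lam_ds_le T _ _)
  · refine le_of_tendsto_of_tendsto (tendsto_const_nhds (x := c) (f := (atTop : Filter ℕ)))
      ((tendsto_const_nhds (x := lam 1 Yᶜ)).add hlim) (Eventually.of_forall fun n => ?_) |>.trans
      (le_of_eq (add_zero _))
    have := (hX (φ n)).2.2.trans (lam_ds_le T _ Yᶜ)
    rwa [ds_compl] at this
  · rw [tendsto_iff_dist_tendsto_zero]
    exact hlim

/-- There is a minimal family. -/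
theorem exists_minF (T : Tool)
    (hcoc : ∃ C : Set G, IsCompact C ∧ ∀ g : G, ∃ γ ∈ Γ, γ * g ∈ C)
    (hC : ∀ c > (0 : ℝ), ∀ X : ℕ → Set (OnePoint ℂ), (∀ n, Lf Γ U (X n)) →
      (∀ n, c ≤ lam 1 (X n)) → (∀ n, c ≤ lam 1 (X n)ᶜ) →
      ∃ Y, Lf Γ U Y ∧ ∃ φ : ℕ → ℕ, StrictMono φ ∧
        Tendsto (fun n => ds (X (φ n)) Y) atTop (𝓝 0))
    (hF : Fam Γ U {X | Lf Γ U X}) : ∃ M, MinF Γ U M := by
  obtain ⟨c, hc, hbal⟩ := balanced (U := U) T hcoc
  have hK := slice_compact T hC hc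
  have hne : ∀ M, Fam Γ U M → ∃ X ∈ M, c ≤ lam 1 X ∧ c ≤ lam 1 Xᶜ := by
    intro M hM
    obtain ⟨X, hX⟩ := hM.ne
    obtain ⟨g, hg, h1, h2⟩ := hbal X (hM.leaf X hX)
    exact ⟨mv g X, hM.inv X hX g hg, h1, h2⟩
  obtain ⟨M, -, hM⟩ := zorn_superset_nonempty {M | Fam Γ U M} (by
    intro C hCS hch hCne
    refine ⟨⋂₀ C, ?_, fun M hM => sInter_subset_of_mem hM⟩
    refine ⟨?_, ?_, ?_, ?_, ?_⟩
    · intro X hX
      obtain ⟨M, hM⟩ := hCne
      exact (hCS hM).leaf X (hX M hM)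
    · letI := pm T
      have h1 := hK.inter_iInter_nonempty
        (fun M : C => closure ({X | Lf Γ U X ∧ c ≤ lam 1 X ∧ c ≤ lam 1 Xᶜ} ∩ M.1))
        (fun M => isClosed_closure) (by
          intro u
          rcases u.eq_empty_or_nonempty with rfl | hu
          · obtain ⟨M, hM⟩ := hCne
            obtain ⟨X, hX, hX1, hX2⟩ := hne M (hCS hM)
            exact ⟨X, ⟨(hCS hM).leaf X hX, hX1, hX2⟩, by simp⟩
          · obtain ⟨M₀, hM₀⟩ := u.exists_minimal hu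
            obtain ⟨X, hX, hX1, hX2⟩ := hne M₀.1 (hCS M₀.2)
            have hL := (hCS M₀.2).leaf X hX
            refine ⟨X, ⟨hL, hX1, hX2⟩, ?_⟩
            rw [mem_iInter₂]
            intro M hM
            apply subset_closure
            refine ⟨⟨hL, hX1, hX2⟩, ?_⟩
            rcases eq_or_ne M M₀ with rfl | hMne
            · exact hX
            · rcases hch M.2 M₀.2 (fun h => hMne (Subtype.ext h)) with h | h
              · have h3 : M₀ ≤ M := hM₀.2 hM h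
                exact h3 hX
              · exact h hX)
      obtain ⟨X, hX, hX2⟩ := h1
      refine ⟨X, fun M hM => ?_⟩
      rw [mem_iInter] at hX2
      have h2 := hX2 ⟨M, hM⟩
      rw [Metric.mem_closure_iff] at h2
      refine (hCS hM).closed X hX.1.meas hX.1.pos hX.1.cpos fun ε hε => ?_
      obtain ⟨Y, hY, hd⟩ := h2 ε hε
      exact ⟨Y, hY.2, hd⟩
    · intro X hX g hg M hM
      exact (hCS hM).inv X (hX M hM) g hg
    · intro X hX M hM
      exact (hCS hM).compl X (hX M hM)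
    · intro X mX hp hq h M hM
      refine (hCS hM).closed X mX hp hq fun ε hε => ?_
      obtain ⟨Y, hY, hd⟩ := h ε hε
      exact ⟨Y, hY M hM, hd⟩) _ hF
  refine ⟨M, ?_⟩
  have hMF : Fam Γ U M := hM.1
  refine ⟨hMF.leaf, hMF.ne, hMF.inv, hMF.compl, hMF.closed, ?_⟩
  intro X hX
  have mX := (hMF.leaf X hX).meas
  have hsub : M ⊆ {Y | Y ∈ M ∧ ∀ ε > (0 : ℝ), ∃ g ∈ Γ, ds (mv g X) Y < ε ∨
      ds (mv g X)ᶜ Y < ε} := by
    refine hM.2 ?_ (fun Y hY => hY.1)
    refine ⟨fun Y hY => hMF.leaf Y hY.1, ⟨X, hX, fun ε hε => ⟨1, Γ.one_mem, Or.inl ?_⟩⟩,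
      ?_, ?_, ?_⟩
    · rwa [mv_one, ds_self]
    · rintro Y ⟨hY, hYa⟩ g hg
      have mY := (hMF.leaf Y hY).meas
      refine ⟨hMF.inv Y hY g hg, fun ε hε => ?_⟩
      obtain ⟨c', hc1, hc'⟩ := ds_mv_le T g
      have hc0 : 0 < c' := by linarith
      obtain ⟨h, hh, h3⟩ := hYa (ε / c') (by positivity)
      refine ⟨g * h, Γ.mul_mem hg hh, ?_⟩
      rcases h3 with h3 | h3
      · left
        rw [mv_mul]
        have := hc' (mv h X) Y (meas_mv h mX) mY
        rw [lt_div_iff₀ hc0] at h3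
        linarith
      · right
        rw [mv_mul, ← mv_compl]
        have := hc' (mv h X)ᶜ Y (meas_mv h mX).compl mY
        rw [lt_div_iff₀ hc0] at h3
        linarith
    · rintro Y ⟨hY, hYa⟩
      refine ⟨hMF.compl Y hY, fun ε hε => ?_⟩
      obtain ⟨h, hh, h3⟩ := hYa ε hε
      refine ⟨h, hh, ?_⟩
      rcases h3 with h3 | h3
      · right
        rwa [ds_compl]
      · left
        rwa [← ds_compl, compl_compl]
    · intro Z mZ hp hq hZ
      refine ⟨hMF.closed Z mZ hp hq fun ε hε => ?_, fun ε hε => ?_⟩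
      · obtain ⟨Y, hY, hd⟩ := hZ ε hε
        exact ⟨Y, hY.1, hd⟩
      · obtain ⟨Y, hY, hd⟩ := hZ (ε / 2) (by linarith)
        obtain ⟨h, hh, h3⟩ := hY.2 (ε / 2) (by linarith)
        rw [ds_comm] at hd
        refine ⟨h, hh, ?_⟩
        rcases h3 with h3 | h3
        · left
          have := ds_tri T (mv h X) Y Z
          linarith
        · right
          have := ds_tri T (mv h X)ᶜ Y Z
          linarith
  intro Y hY ε hε
  exact (hsub hY).2 ε hε

end Pool.Agent.H81.NS
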